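import Pool.Agent.TH809.SY.Prod

/-!
# Symplectic forms on `X × Y` which are invariant along a fixed slice

Let `τ : Y → Y` be a smooth map with a nondegenerate fixed point `y₀` (its derivative there has no
nonzero fixed vector), for instance the rotation of `S²` by `π`, or a hyperbolic automorphism of a
torus.  If a symplectic form on `X × Y` is invariant under `id × τ` just at the points of the slice
`X × {y₀}`, then its restriction to the slice is symplectic.  So `X × Y` has an `id × τ`-invariant
symplectic form if and only if `X` has a symplectic form (`Y` with a `τ`-invariant one).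

With `X = #3 CP² #2 (-CP²)`, which is almost complex, has classes `b` with `b² > 0`, and is not
symplectic by Taubes, this shows that the version of the question for forms invariant under a given
involution is false in every dimension `≥ 6`.
-/

set_option autoImplicit false

open scoped Manifold ContDiff
open Set Function

namespace Pool.Agent.Results.MP_9986fc_gt.FixedSliceForms

open Pool.Agent.TH809.SY

variable {E H X : Type*} [NormedAddCommGroup E] [NormedSpace ℝ E] [FiniteDimensional ℝ E]
  [TopologicalSpace H] {I : ModelWithCorners ℝ E H} [TopologicalSpace X] [ChartedSpace H X]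
  [I.Boundaryless] [IsManifold I ∞ X]
  {F G Y : Type*} [NormedAddCommGroup F] [NormedSpace ℝ F] [FiniteDimensional ℝ F]
  [TopologicalSpace G] {J : ModelWithCorners ℝ F G} [TopologicalSpace Y] [ChartedSpace G Y]
  [J.Boundaryless] [IsManifold J ∞ Y]

variable (J) in
/-- `y₀` is a nondegenerate fixed point of `τ`: `τ` is differentiable there and its derivative has no
nonzero fixed vector. -/
structure NondegenerateFixedPoint (τ : Y → Y) (y₀ : Y) : Prop where
  diff : MDifferentiableAt J J τ y₀
  fixed : τ y₀ = y₀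
  nondeg : ∀ w : F, dmap J τ y₀ w = w → w = 0

/-- The restriction of a form on `X × Y` to the slice `X × {y₀}`, as a form on `X`. -/
noncomputable def slice (y₀ : Y) (Ω : X × Y → LinearMap.BilinForm ℝ (E × F)) :
    X → LinearMap.BilinForm ℝ E :=
  pull (ContinuousLinearMap.inl ℝ E F) (fun x : X => (x, y₀)) Ω

theorem slice_symplectic {τ : Y → Y} {y₀ : Y} (hτ : NondegenerateFixedPoint J τ y₀)
    {Ω : X × Y → LinearMap.BilinForm ℝ (E × F)} (hΩ : IsSymplectic (I.prod J) Ω)
    (hinv : ∀ (x : X) (v w : E × F), Ω (Prod.map id τ (x, y₀))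
      (dmap (I.prod J) (Prod.map id τ) (x, y₀) v) (dmap (I.prod J) (Prod.map id τ) (x, y₀) w) =
        Ω (x, y₀) v w) :
    IsSymplectic I (slice y₀ Ω) := by
  refine ⟨pull_closed (chartwise_inl y₀) hΩ.toIsClosedForm, fun x u hu => ?_⟩
  -- `(u, 0)` is orthogonal to the vertical vectors
  let D : F →ₗ[ℝ] F := (dmap J τ y₀ : F →ₗ[ℝ] F) - LinearMap.id
  have hD : Surjective D := by
    rw [← LinearMap.injective_iff_surjective]
    refine (injective_iff_map_eq_zero D).2 fun w hw => hτ.nondeg w ?_
    exact sub_eq_zero.1 hw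
  have hvert : ∀ w : F, Ω (x, y₀) (u, 0) (0, w) = 0 := by
    intro w
    obtain ⟨w', rfl⟩ := hD w
    have h := hinv x (u, 0) (0, w')
    have e1 : Prod.map id τ (x, y₀) = (x, y₀) := Prod.ext rfl hτ.fixed
    have d1 : ∀ v : E × F, dmap (I.prod J) (Prod.map id τ) (x, y₀) v =
        (v.1, dmap J τ y₀ v.2) := by
      intro v
      rw [dmap_prodMap (p := (x, y₀)) mdifferentiableAt_id hτ.diff v, dmap_id]
    rw [d1, d1, e1] at h
    simp only [map_zero] at h
    have e2 : ((0 : E), D w') = (0, dmap J τ y₀ w') - (0, w') := by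
      simp [D]
    rw [e2, map_sub, h, sub_self]
  have hker : ((u, 0) : E × F) = 0 := by
    refine hΩ.nondeg (x, y₀) (u, 0) fun v => ?_
    have e3 : v = (v.1, 0) + (0, v.2) := by simp
    rw [e3, map_add, hvert, add_zero]
    exact hu v.1
  exact congrArg Prod.fst hker

/-- **Symplectic forms on `X × Y` invariant along a fixed slice.** -/
theorem result {τ : Y → Y} {y₀ : Y} (hτ : NondegenerateFixedPoint J τ y₀) :
    (∀ Ω : X × Y → LinearMap.BilinForm ℝ (E × F), IsSymplectic (I.prod J) Ω →
      (∀ (x : X) (v w : E × F), Ω (Prod.map id τ (x, y₀))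
        (dmap (I.prod J) (Prod.map id τ) (x, y₀) v) (dmap (I.prod J) (Prod.map id τ) (x, y₀) w) =
          Ω (x, y₀) v w) →
      IsSymplectic I (slice y₀ Ω)) ∧
    (MDifferentiable J J τ →
      (∃ σ : Y → LinearMap.BilinForm ℝ F, IsSymplectic J σ ∧ Invariant J τ σ) →
      ((∃ Ω : X × Y → LinearMap.BilinForm ℝ (E × F),
          IsSymplectic (I.prod J) Ω ∧ Invariant (I.prod J) (Prod.map id τ) Ω) ↔
        ∃ Ω : X → LinearMap.BilinForm ℝ E, IsSymplectic I Ω)) := by
  refine ⟨fun Ω hΩ hinv => slice_symplectic hτ hΩ hinv, ?_⟩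
  rintro hd ⟨σ, hσ, hσi⟩
  constructor
  · rintro ⟨Ω, hΩ, hinv⟩
    exact ⟨_, slice_symplectic hτ hΩ fun x v w => hinv (x, y₀) v w⟩
  · rintro ⟨Ω, hΩ⟩
    refine ⟨prodForm Ω σ, prodForm_symplectic hΩ hσ, fun p v w => ?_⟩
    have d1 : ∀ v : E × F, dmap (I.prod J) (Prod.map id τ) p v = (v.1, dmap J τ p.2 v.2) := by
      intro v
      rw [dmap_prodMap (p := p) mdifferentiableAt_id (hd p.2) v, dmap_id]
    rw [d1, d1, prodForm_apply, prodForm_apply]
    have h := hσi p.2 v.2 w.2
    simp only [Prod.map_fst, Prod.map_snd, id] at *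
    rw [h]

end Pool.Agent.Results.MP_9986fc_gt.FixedSliceForms
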