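import Pool.Agent.TH327.PT.Main

/-!
# Symplectic forms of product type on `X × Y`

Let `X`, `Y` be closed manifolds.  A 2-form on `X × Y` is of product type if it is a sum of a closed
2-form of `X`, a closed 2-form of `Y` and finitely many products `α ∧ β` of a closed 1-form `α` of
`X` and a closed 1-form `β` of `Y` (for instance every torus-invariant closed 2-form on `X × T^k`
is of product type).  We show that `X × Y` has a symplectic form of product type if and only if
`X` and `Y` are both symplectic or both cosymplectic, that is, carry a closed 1-form `a` without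
zeros and a closed 2-form `b` which is nondegenerate on the kernel of `a`.

For closed orientable 3-manifolds `X`, `Y` with `b₁ > 0` the 6-manifold `X × Y` is parallelizable
and has a class `a` with `a³ > 0`; by the theorem and by Tischler's theorem it has a symplectic form
of product type only if both `X` and `Y` fibre over the circle.

The definitions `coord`, `dch`, `IsClosedForm`, `IsSymplectic` are in `Pool.Agent.TH809.SY.Basic`,
`coord1`, `IsClosed1` in `Pool.Agent.TH327.PT.Forms` and `Cosymplectic` in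
`Pool.Agent.TH327.PT.Main`.
-/

set_option autoImplicit false
set_option linter.unusedSectionVars false

open scoped Manifold ContDiff
open Set Function

namespace Pool.Agent.Results.MP_9986fc_gt.ProductTypeForms

open Pool.Agent.TH809.SY Pool.Agent.TH327.PT

variable {E H X : Type*} [NormedAddCommGroup E] [NormedSpace ℝ E] [FiniteDimensional ℝ E]
  [TopologicalSpace H] (I : ModelWithCorners ℝ E H) [TopologicalSpace X] [ChartedSpace H X]
  {F G Y : Type*} [NormedAddCommGroup F] [NormedSpace ℝ F] [FiniteDimensional ℝ F]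
  [TopologicalSpace G] (J : ModelWithCorners ℝ F G) [TopologicalSpace Y] [ChartedSpace G Y]

/-- At the points of the slice `X × {y₀}` the form `Ω` is `σ + τ + ∑ i, α i ∧ β i` with closed forms
`σ`, `α i` of `X` and a constant bilinear form `τ` and constant linear forms `β i` on the tangent
space of `Y` at `y₀`. -/
def IsSliceType (y₀ : Y) (Ω : X × Y → LinearMap.BilinForm ℝ (E × F)) : Prop :=
  ∃ (k : ℕ) (σ : X → LinearMap.BilinForm ℝ E) (τ : LinearMap.BilinForm ℝ F)
    (α : Fin k → X → Module.Dual ℝ E) (β : Fin k → Module.Dual ℝ F),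
    IsClosedForm I σ ∧ (∀ i, IsClosed1 I (α i)) ∧
      ∀ (x : X) (v w : E × F), Ω (x, y₀) v w = σ x v.1 w.1 + τ v.2 w.2 +
        ∑ i, (α i x v.1 * β i w.2 - α i x w.1 * β i v.2)

/-- `Ω` is of product type: `Ω = σ + τ + ∑ i, α i ∧ β i` with closed forms `σ`, `α i` of `X` and
`τ`, `β i` of `Y`. -/
def IsProductType (Ω : X × Y → LinearMap.BilinForm ℝ (E × F)) : Prop :=
  ∃ (k : ℕ) (σ : X → LinearMap.BilinForm ℝ E) (τ : Y → LinearMap.BilinForm ℝ F)
    (α : Fin k → X → Module.Dual ℝ E) (β : Fin k → Y → Module.Dual ℝ F),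
    IsClosedForm I σ ∧ IsClosedForm J τ ∧ (∀ i, IsClosed1 I (α i)) ∧ (∀ i, IsClosed1 J (β i)) ∧
      ∀ (p : X × Y) (v w : E × F), Ω p v w = σ p.1 v.1 w.1 + τ p.2 v.2 w.2 +
        ∑ i, (α i p.1 v.1 * β i p.2 w.2 - α i p.1 w.1 * β i p.2 v.2)

/-- The product of two cosymplectic manifolds has a symplectic form of product type. -/
theorem cosymplectic_prod {I : ModelWithCorners ℝ E H} {J : ModelWithCorners ℝ F G}
    [I.Boundaryless] [IsManifold I ∞ X] [J.Boundaryless] [IsManifold J ∞ Y]
    {a : X → Module.Dual ℝ E} {b : X → LinearMap.BilinForm ℝ E}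
    {a' : Y → Module.Dual ℝ F} {b' : Y → LinearMap.BilinForm ℝ F}
    (h : Cosymplectic I a b) (h' : Cosymplectic J a' b') :
    ∃ Ω : X × Y → LinearMap.BilinForm ℝ (E × F),
      IsSymplectic (I.prod J) Ω ∧ IsProductType I J Ω := by
  let κ : LinearMap.BilinForm ℝ (ℝ × ℝ) := LinearMap.mk₂ ℝ (fun s t => s.1 * t.2 - s.2 * t.1)
    (fun _ _ _ => by simp; ring) (fun _ _ _ => by simp; ring)
    (fun _ _ _ => by simp; ring) (fun _ _ _ => by simp; ring)
  have hκ : ∀ s t, κ s t = s.1 * t.2 - s.2 * t.1 := fun _ _ => rfl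
  let A : X × Y → Fin 2 → Module.Dual ℝ (E × F) := fun p =>
    ![(a p.1).comp (ContinuousLinearMap.fst ℝ E F : E × F →ₗ[ℝ] E),
      (a' p.2).comp (ContinuousLinearMap.snd ℝ E F : E × F →ₗ[ℝ] F)]
  have hA : ∀ i, IsClosed1 (I.prod J) fun p => A p i := by
    intro i
    fin_cases i
    · exact pull1_closed (chartwise_fst (I := I) (J := J)) h.1
    · exact pull1_closed (chartwise_snd (I := I) (J := J)) h'.1
  let g : Fin 2 → ℝ × ℝ := ![(1, 0), (0, 1)]
  have hw := wedge_closed hA κ (fun w => by rw [hκ]; ring) g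
  have hAA : ∀ p v, AA (A p) g v = (a p.1 v.1, a' p.2 v.2) := by
    intro p v
    rw [AA_apply, Fin.sum_univ_two]
    simp [A, g]
  let Ω : X × Y → LinearMap.BilinForm ℝ (E × F) := fun p =>
    prodForm b b' p + κ.compl₁₂ (AA (A p) g) (AA (A p) g)
  have hΩ : ∀ p v w, Ω p v w = b p.1 v.1 w.1 + b' p.2 v.2 w.2 +
      (a p.1 v.1 * a' p.2 w.2 - a p.1 w.1 * a' p.2 v.2) := by
    intro p v w
    show prodForm b b' p v w + κ (AA (A p) g v) (AA (A p) g w) = _
    rw [prodForm_apply, hAA, hAA, hκ]
    ring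
  refine ⟨Ω, ⟨add_closed (add_closed (pull_closed chartwise_fst h.2.1)
    (pull_closed chartwise_snd h'.2.1)) hw, ?_⟩, ?_⟩
  · rintro ⟨x, y⟩ ⟨u, v⟩ hker
    have e : ∀ u' v', b x u u' + b' y v v' + (a x u * a' y v' - a x u' * a' y v) = 0 := by
      intro u' v'
      have := hker (u', v')
      rwa [hΩ] at this
    have e1 : ∀ u', b x u u' = a x u' * a' y v := by
      intro u'
      have := e u' 0
      simp only [map_zero, mul_zero, add_zero, zero_sub] at this
      linarith
    have e2 : ∀ v', b' y v v' = - (a x u * a' y v') := by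
      intro v'
      have := e 0 v'
      simp only [map_zero, zero_mul, zero_add, sub_zero] at this
      linarith
    have e3 : a x u * a' y v = 0 := by
      rw [← e1, h.2.1.alt]
    obtain ⟨u₁, hu₁⟩ : ∃ u₁, a x u₁ ≠ 0 := by
      by_contra hcon
      push Not at hcon
      exact h.2.2.1 x (LinearMap.ext hcon)
    obtain ⟨v₁, hv₁⟩ : ∃ v₁, a' y v₁ ≠ 0 := by
      by_contra hcon
      push Not at hcon
      exact h'.2.2.1 y (LinearMap.ext hcon)
    rcases mul_eq_zero.1 e3 with e4 | e4
    · have hu : u = 0 := h.2.2.2 x u e4 fun u' hu' => by rw [e1, hu', zero_mul]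
      have e5 : a' y v = 0 := by
        have := e1 u₁
        rw [hu, map_zero, LinearMap.zero_apply] at this
        exact (mul_eq_zero.1 this.symm).resolve_left hu₁
      have hv : v = 0 := h'.2.2.2 y v e5 fun v' _ => by rw [e2, e4, zero_mul, neg_zero]
      rw [hu, hv]
      rfl
    · have hv : v = 0 := h'.2.2.2 y v e4 fun v' hv' => by rw [e2, hv', mul_zero, neg_zero]
      have e5 : a x u = 0 := by
        have := e2 v₁
        rw [hv, map_zero, LinearMap.zero_apply] at this
        have h6 : a x u * a' y v₁ = 0 := by linarith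
        exact (mul_eq_zero.1 h6).resolve_right hv₁
      have hu : u = 0 := h.2.2.2 x u e5 fun u' _ => by rw [e1, e4, mul_zero]
      rw [hu, hv]
      rfl
  · refine ⟨1, b, b', fun _ => a, fun _ => a', h.2.1, h'.2.1, fun _ => h.1, fun _ => h'.1,
      fun p v w => ?_⟩
    rw [hΩ]
    simp

/-- a cosymplectic manifold has odd dimension -/
theorem odd_of_cosymplectic {I : ModelWithCorners ℝ E H} [Nonempty X]
    {a : X → Module.Dual ℝ E} {b : X → LinearMap.BilinForm ℝ E} (h : Cosymplectic I a b) :
    Odd (Module.finrank ℝ E) := by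
  obtain ⟨x⟩ := (inferInstance : Nonempty X)
  let B : LinearMap.BilinForm ℝ (E × ℝ) := LinearMap.mk₂ ℝ
    (fun s t => b x s.1 t.1 + (a x s.1 * t.2 - a x t.1 * s.2))
    (fun _ _ _ => by simp; ring) (fun _ _ _ => by simp; ring)
    (fun _ _ _ => by simp; ring) (fun _ _ _ => by simp; ring)
  have hB : ∀ s t, B s t = b x s.1 t.1 + (a x s.1 * t.2 - a x t.1 * s.2) := fun _ _ => rfl
  have h1 : Even (Module.finrank ℝ (E × ℝ)) := by
    refine even_of_nondeg B (fun s => by rw [hB, h.2.1.alt]; ring) ?_
    rintro ⟨u, s⟩ hs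
    have e1 : a x u = 0 := by
      have := hs (0, 1)
      rw [hB] at this
      simpa using this
    have e2 : ∀ v, b x u v = a x v * s := by
      intro v
      have := hs (v, 0)
      rw [hB] at this
      simp only [mul_zero, zero_sub] at this
      linarith
    have hu : u = 0 := h.2.2.2 x u e1 fun v hv => by rw [e2, hv, zero_mul]
    obtain ⟨u₁, hu₁⟩ : ∃ u₁, a x u₁ ≠ 0 := by
      by_contra hcon
      push Not at hcon
      exact h.2.2.1 x (LinearMap.ext hcon)
    have hs0 : s = 0 := by
      have := e2 u₁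
      rw [hu, map_zero, LinearMap.zero_apply] at this
      exact (mul_eq_zero.1 this.symm).resolve_left hu₁
    rw [hu, hs0]
    rfl
  rw [Module.finrank_prod, Module.finrank_self] at h1
  exact Nat.not_even_iff_odd.1 fun h2 => (Nat.not_even_iff_odd.2 (h2.add_one)) h1

/-- the reduction to `X` -/
theorem slice_type {I : ModelWithCorners ℝ E H} {J : ModelWithCorners ℝ F G}
    [I.Boundaryless] [IsManifold I ∞ X] [CompactSpace X] [Nonempty X]
    {Ω : X × Y → LinearMap.BilinForm ℝ (E × F)} (hΩ : IsSymplectic (I.prod J) Ω) {y₀ : Y}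
    (h : IsSliceType I y₀ Ω) :
    (∃ sX : X → LinearMap.BilinForm ℝ E, IsSymplectic I sX) ∨
      ∃ (a : X → Module.Dual ℝ E) (b : X → LinearMap.BilinForm ℝ E), Cosymplectic I a b := by
  obtain ⟨k, σ, τ, α, β, hσ, hα, hform⟩ := h
  obtain ⟨x₀⟩ := (inferInstance : Nonempty X)
  refine slice (I := I) hσ (α := fun x i => α i x) (fun i => hα i) τ (fun w => ?_) β
    (fun x u w huw => ?_)
  · have h1 := hform x₀ (0, w) (0, w)
    rw [hΩ.alt] at h1
    simpa using h1.symm
  · have h1 : ((u, w) : E × F) = 0 := hΩ.nondeg (x, y₀) (u, w) fun v => by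
      rw [hform]
      exact huw v.1 v.2
    exact ⟨congrArg Prod.fst h1, congrArg Prod.snd h1⟩

/-- **Symplectic forms of product type.** (1) If a symplectic form on `X × Y`, `X` compact, is of
product type along one slice `X × {y₀}`, then `X` is symplectic or cosymplectic. (2) If `Y` is
compact too, then `X × Y` has a symplectic form of product type if and only if `X` and `Y` are both
symplectic or both cosymplectic. -/
theorem result [I.Boundaryless] [IsManifold I ∞ X] [J.Boundaryless] [IsManifold J ∞ Y]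
    [CompactSpace X] [Nonempty X] [Nonempty Y] :
    (∀ (Ω : X × Y → LinearMap.BilinForm ℝ (E × F)) (y₀ : Y), IsSymplectic (I.prod J) Ω →
      IsSliceType I y₀ Ω →
      (∃ sX : X → LinearMap.BilinForm ℝ E, IsSymplectic I sX) ∨
        ∃ (a : X → Module.Dual ℝ E) (b : X → LinearMap.BilinForm ℝ E), Cosymplectic I a b) ∧
    (CompactSpace Y →
      ((∃ Ω : X × Y → LinearMap.BilinForm ℝ (E × F),
          IsSymplectic (I.prod J) Ω ∧ IsProductType I J Ω) ↔
        ((∃ sX : X → LinearMap.BilinForm ℝ E, IsSymplectic I sX) ∧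
          ∃ sY : Y → LinearMap.BilinForm ℝ F, IsSymplectic J sY) ∨
        ((∃ (a : X → Module.Dual ℝ E) (b : X → LinearMap.BilinForm ℝ E), Cosymplectic I a b) ∧
          ∃ (a : Y → Module.Dual ℝ F) (b : Y → LinearMap.BilinForm ℝ F), Cosymplectic J a b))) := by
  refine ⟨fun Ω y₀ hΩ h => slice_type hΩ h, fun hYc => ?_⟩
  constructor
  · rintro ⟨Ω, hΩ, k, σ, τ, α, β, hσ, hτ, hα, hβ, hform⟩
    obtain ⟨x₀⟩ := (inferInstance : Nonempty X)
    obtain ⟨y₀⟩ := (inferInstance : Nonempty Y)
    have hX : (∃ sX : X → LinearMap.BilinForm ℝ E, IsSymplectic I sX) ∨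
        ∃ (a : X → Module.Dual ℝ E) (b : X → LinearMap.BilinForm ℝ E), Cosymplectic I a b :=
      slice_type hΩ (y₀ := y₀) ⟨k, σ, τ y₀, α, fun i => β i y₀, hσ, hα, fun x v w => hform _ v w⟩
    have hY := slice (I := J) hτ (α := fun y i => β i y) (fun i => hβ i) (σ x₀)
      (fun w => hσ.alt x₀ w) (fun i => -(α i x₀)) (fun y w u hwu => by
        have h1 : ((u, w) : E × F) = 0 := hΩ.nondeg (x₀, y) (u, w) fun v => by
          rw [hform]
          have h2 := hwu v.2 v.1
          unfold om at h2
          rw [← h2]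
          simp only [LinearMap.neg_apply]
          have h3 : ∑ i, (β i y w * -(α i x₀) v.1 - β i y v.2 * -(α i x₀) u) =
              ∑ i, ((α i x₀) u * (β i y) v.2 - (α i x₀) v.1 * (β i y) w) :=
            Finset.sum_congr rfl fun i _ => by ring
          rw [h3]
          ring
        exact ⟨congrArg Prod.snd h1, congrArg Prod.fst h1⟩)
    have hpar : Even (Module.finrank ℝ (E × F)) :=
      even_of_nondeg (Ω (x₀, y₀)) (hΩ.alt _) (hΩ.nondeg _)
    rw [Module.finrank_prod] at hpar
    rcases hX with hX | hX <;> rcases hY with hY | hY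
    · exact Or.inl ⟨hX, hY⟩
    · exfalso
      obtain ⟨sX, hsX⟩ := hX
      obtain ⟨a, b, hab⟩ := hY
      have h1 := even_of_nondeg (sX x₀) (hsX.alt _) (hsX.nondeg _)
      have h2 := odd_of_cosymplectic hab
      exact (Nat.not_even_iff_odd.2 (h1.add_odd h2)) hpar
    · exfalso
      obtain ⟨sY, hsY⟩ := hY
      obtain ⟨a, b, hab⟩ := hX
      have h1 := even_of_nondeg (sY y₀) (hsY.alt _) (hsY.nondeg _)
      have h2 := odd_of_cosymplectic hab
      exact (Nat.not_even_iff_odd.2 (h2.add_even h1)) hpar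
    · exact Or.inr ⟨hX, hY⟩
  · rintro (⟨⟨sX, hsX⟩, sY, hsY⟩ | ⟨⟨a, b, h⟩, a', b', h'⟩)
    · refine ⟨prodForm sX sY, prodForm_symplectic hsX hsY, 0, sX, sY, fun i => i.elim0,
        fun i => i.elim0, hsX.toIsClosedForm, hsY.toIsClosedForm, fun i => i.elim0,
        fun i => i.elim0, fun p v w => ?_⟩
      rw [prodForm_apply]
      simp
    · exact cosymplectic_prod h h'

end Pool.Agent.Results.MP_9986fc_gt.ProductTypeForms
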