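import Mathlib

set_option autoImplicit false

namespace Pool.Agent.Results.MP_9986fc_gt.SurfaceFactors

open scoped TensorProduct

/-- A graded-commutative real algebra (degrees `0, 1, 2, …`) with a family, indexed by `F`, of
degree-preserving algebra endomorphisms. Model: `H*(X; ℝ)` for a manifold `X` on which the group
`F` acts. -/
structure Coh (F : Type) where
  /-- the underlying real algebra -/
  carrier : Type
  [ring : Ring carrier]
  [algebra : Algebra ℝ carrier]
  /-- the part of degree `n` -/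
  deg : ℕ → Submodule ℝ carrier
  internal : DirectSum.IsInternal deg
  one_mem : (1 : carrier) ∈ deg 0
  mul_mem : ∀ {i j : ℕ} {x y : carrier}, x ∈ deg i → y ∈ deg j → x * y ∈ deg (i + j)
  comm : ∀ {i j : ℕ} {x y : carrier}, x ∈ deg i → y ∈ deg j →
    y * x = (-1 : ℝ) ^ (i * j) • (x * y)
  /-- the action -/
  act : F → carrier →ₐ[ℝ] carrier
  act_mem : ∀ (γ : F) {i : ℕ} {x : carrier}, x ∈ deg i → act γ x ∈ deg i

attribute [instance] Coh.ring Coh.algebra

variable {F : Type}

/-- `N` looks like the cohomology of a closed connected manifold of dimension `2 n`: it is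
non-zero, degree `0` is spanned by `1`, and degrees `> 2 n` vanish. -/
def HasDim (N : Coh F) (n : ℕ) : Prop :=
  (1 : N.carrier) ≠ 0 ∧ N.deg 0 = Submodule.span ℝ {1} ∧ ∀ i, 2 * n < i → N.deg i = ⊥

/-- `F` fixes every product of two classes of degree `1`. -/
def FixesProducts (N : Coh F) : Prop :=
  ∀ γ, ∀ y ∈ N.deg 1, ∀ y' ∈ N.deg 1, N.act γ (y * y') = y * y'

/-- some `F`-invariant class of degree `2` has non-zero `n`-th power -/
def HasClass (N : Coh F) (n : ℕ) : Prop :=
  ∃ a ∈ N.deg 2, (∀ γ, N.act γ a = a) ∧ a ^ n ≠ 0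

/-- `P` is the Künneth product `A ⊗ S` (with the diagonal action): there are equivariant algebra
maps `f : A → P`, `g : S → P` such that `x ⊗ y ↦ f x * g y` is a bijection `A ⊗ S → P` and the part
of degree `n` of `P` is spanned by the `f x * g y` with `deg x + deg y = n`. -/
structure Kuenneth (A S P : Coh F) where
  /-- pull-back from the first factor -/
  f : A.carrier →ₐ[ℝ] P.carrier
  /-- pull-back from the second factor -/
  g : S.carrier →ₐ[ℝ] P.carrier
  f_act : ∀ γ x, f (A.act γ x) = P.act γ (f x)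
  g_act : ∀ γ y, g (S.act γ y) = P.act γ (g y)
  deg_eq : ∀ n, P.deg n = Submodule.span ℝ {p | ∃ (i j : ℕ) (x : A.carrier) (y : S.carrier),
    i + j = n ∧ x ∈ A.deg i ∧ y ∈ S.deg j ∧ p = f x * g y}
  bij : Function.Bijective (TensorProduct.lift
    ((LinearMap.mul ℝ P.carrier).compl₁₂ f.toLinearMap g.toLinearMap))

/-- `IsTower A l B`: the list `l` consists of pairs `(N, n)` with `HasDim N n` and
`FixesProducts N`, and `B` is the Künneth product of `A` and all these `N`. -/
inductive IsTower (A : Coh F) : List (Coh F × ℕ) → Coh F → Prop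
  | base : IsTower A [] A
  | step {l : List (Coh F × ℕ)} {B N P : Coh F} {n : ℕ} : IsTower A l B → HasDim N n →
      FixesProducts N → Nonempty (Kuenneth B N P) → IsTower A ((N, n) :: l) P

theorem exists_term {R : Type} [Ring R] {u w X : R} (h : Commute u w) {k : ℕ}
    (hne : (u + w) ^ k * X ≠ 0) : ∃ i j, i + j = k ∧ u ^ i * w ^ j * X ≠ 0 := by
  by_contra hcon
  push Not at hcon
  apply hne
  rw [h.add_pow, Finset.sum_mul]
  refine Finset.sum_eq_zero fun i hi => ?_
  have hi' : i ≤ k := by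
    have := Finset.mem_range.1 hi
    omega
  rw [← nsmul_eq_mul', smul_mul_assoc, hcon i (k - i) (by omega), smul_zero]

theorem deriv_zero {R : Type} [Ring R] [Algebra ℝ R] {x q X : R} (hc : q * x = x * q)
    {m : ℕ} (h : ∀ t : ℝ, (x + t • q) ^ (m + 1) * X = 0) : x ^ m * (q * X) = 0 := by
  classical
  by_contra hcon
  obtain ⟨φ, hφ⟩ : ∃ φ : R →ₗ[ℝ] ℝ, φ (x ^ m * (q * X)) ≠ 0 := by
    by_contra hcon'
    push Not at hcon'
    exact hcon ((Module.forall_dual_apply_eq_zero_iff ℝ _).1 hcon')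
  let p : Polynomial ℝ := ∑ k ∈ Finset.range (m + 1 + 1),
    Polynomial.C (φ (q ^ k * x ^ (m + 1 - k) * (((m + 1).choose k : ℕ) : R) * X)) *
      Polynomial.X ^ k
  have hp : p = 0 := by
    apply Polynomial.funext
    intro t
    have hcomm : Commute (t • q) x := by
      rw [commute_iff_eq, smul_mul_assoc, mul_smul_comm, hc]
    have h1 := h t
    rw [add_comm, hcomm.add_pow, Finset.sum_mul] at h1
    have h2 := congrArg φ h1
    rw [map_zero, map_sum] at h2
    rw [Polynomial.eval_zero, ← h2, Polynomial.eval_finsetSum]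
    refine Finset.sum_congr rfl fun k _ => ?_
    rw [smul_pow, smul_mul_assoc, smul_mul_assoc, smul_mul_assoc, map_smul, smul_eq_mul,
      Polynomial.eval_mul, Polynomial.eval_C, Polynomial.eval_pow, Polynomial.eval_X, mul_comm]
  have h1 : p.coeff 1 = φ (q ^ 1 * x ^ (m + 1 - 1) * (((m + 1).choose 1 : ℕ) : R) * X) := by
    simp only [p, Polynomial.finsetSum_coeff, Polynomial.coeff_C_mul_X_pow]
    rw [Finset.sum_ite_eq, if_pos (Finset.mem_range.2 (by omega))]
  rw [hp, Polynomial.coeff_zero, Nat.choose_one_right, pow_one, Nat.add_sub_cancel] at h1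
  have hcx : Commute q (x ^ m) := Commute.pow_right hc _
  rw [hcx.eq, ← nsmul_eq_mul', smul_mul_assoc, map_nsmul, nsmul_eq_mul, mul_assoc] at h1
  have hm0 : ((m + 1 : ℕ) : ℝ) ≠ 0 := by positivity
  exact hφ ((mul_eq_zero.1 h1.symm).resolve_left hm0)

/-- polarization -/
theorem polarization {R : Type} [Ring R] [Algebra ℝ R] (E : Submodule ℝ R)
    (hE : ∀ x ∈ E, ∀ y ∈ E, y * x = x * y) (k : ℕ) :
    ∀ X : R, (∀ x ∈ E, x ^ k * X = 0) → ∀ y ∈ E ^ k, y * X = 0 := by
  induction k with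
  | zero =>
    intro X hX y _
    have h0 : X = 0 := by simpa using hX 0 E.zero_mem
    rw [h0, mul_zero]
  | succ k ih =>
    intro X hX y hy
    rw [pow_succ] at hy
    refine Submodule.mul_induction_on (C := fun y => y * X = 0) hy ?_ ?_
    · intro z hz q hq
      rw [mul_assoc]
      refine ih (q * X) ?_ z hz
      intro x hx
      exact deriv_zero (hE x hx q hq) fun t => hX _ (E.add_mem hx (E.smul_mem t hq))
    · intro y z hy hz
      rw [add_mul, hy, hz, add_zero]

theorem exists_functional (S : Coh F) (i : ℕ) (ψ : S.carrier →ₗ[ℝ] ℝ) :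
    ∃ φ : S.carrier →ₗ[ℝ] ℝ, (∀ x ∈ S.deg i, φ x = ψ x) ∧
      ∀ j, j ≠ i → ∀ x ∈ S.deg j, φ x = 0 := by
  classical
  let e := LinearEquiv.ofBijective (DirectSum.coeLinearMap S.deg) S.internal
  have he : ∀ j, ∀ x (hx : x ∈ S.deg j),
      e.symm x = DirectSum.lof ℝ ℕ (fun k => S.deg k) j ⟨x, hx⟩ := by
    intro j x hx
    rw [LinearEquiv.symm_apply_eq]
    change x = DirectSum.coeLinearMap S.deg _
    rw [DirectSum.coeLinearMap_lof]
  let φ : S.carrier →ₗ[ℝ] ℝ := ψ ∘ₗ (S.deg i).subtype ∘ₗ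
    DirectSum.component ℝ ℕ (fun k => S.deg k) i ∘ₗ e.symm.toLinearMap
  refine ⟨φ, ?_, ?_⟩
  · intro x hx
    change ψ ((S.deg i).subtype (DirectSum.component ℝ ℕ (fun k => S.deg k) i (e.symm x))) = _
    rw [he i x hx, DirectSum.component.lof_self]
    rfl
  · intro j hj x hx
    change ψ ((S.deg i).subtype (DirectSum.component ℝ ℕ (fun k => S.deg k) i (e.symm x))) = _
    rw [he j x hx, DirectSum.component.of, dif_neg hj, map_zero, map_zero]

theorem exists_dual_eq_one {V : Type} [AddCommGroup V] [Module ℝ V] {s : V} (hs : s ≠ 0) :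
    ∃ ψ : V →ₗ[ℝ] ℝ, ψ s = 1 := by
  obtain ⟨ψ, h⟩ : ∃ ψ : V →ₗ[ℝ] ℝ, ψ s ≠ 0 := by
    by_contra hcon
    push Not at hcon
    exact hs ((Module.forall_dual_apply_eq_zero_iff ℝ s).1 hcon)
  exact ⟨(ψ s)⁻¹ • ψ, by simp [h]⟩

theorem Coh.comm_even (P : Coh F) {i j : ℕ} {p q : P.carrier} (hi : Even i) (hp : p ∈ P.deg i)
    (hq : q ∈ P.deg j) : q * p = p * q := by
  rw [P.comm hp hq, Even.neg_one_pow (hi.mul_right j), one_smul]

/-- the invariant classes of degree `2` -/
def Coh.inv (P : Coh F) : Submodule ℝ P.carrier where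
  carrier := {a | a ∈ P.deg 2 ∧ ∀ γ, P.act γ a = a}
  add_mem' := fun ha hb => ⟨(P.deg 2).add_mem ha.1 hb.1, fun γ => by rw [map_add, ha.2, hb.2]⟩
  zero_mem' := ⟨(P.deg 2).zero_mem, fun γ => map_zero _⟩
  smul_mem' := fun c _ ha => ⟨(P.deg 2).smul_mem c ha.1, fun γ => by rw [map_smul, ha.2]⟩

theorem Coh.inv_pow_le (P : Coh F) (k : ℕ) : P.inv ^ k ≤ P.deg (2 * k) := by
  induction k with
  | zero =>
    rw [pow_zero]
    intro x hx
    obtain ⟨c, rfl⟩ := Submodule.mem_one.1 hx
    rw [Algebra.algebraMap_eq_smul_one]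
    exact Submodule.smul_mem _ _ P.one_mem
  | succ k ih =>
    rw [pow_succ]
    refine Submodule.mul_le.2 ?_
    intro x hx y hy
    exact P.mul_mem (ih hx) hy.1

theorem Coh.hasClass_of_ne (P : Coh F) {k : ℕ} (h : P.inv ^ k ≠ ⊥) : HasClass P k := by
  by_contra hcon
  apply h
  rw [Submodule.eq_bot_iff]
  intro y hy
  have := polarization P.inv (fun x hx y hy => P.comm_even ⟨1, rfl⟩ hx.1 hy.1) k 1
    (fun x hx => by
      by_contra hne
      exact hcon ⟨x, hx.1, hx.2, by simpa using hne⟩) y hy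
  simpa using this

namespace Kuenneth

variable {A S P : Coh F} (K : Kuenneth A S P)

theorem f_mem {i : ℕ} {x : A.carrier} (hx : x ∈ A.deg i) : K.f x ∈ P.deg i := by
  rw [K.deg_eq]
  exact Submodule.subset_span ⟨i, 0, x, 1, rfl, hx, S.one_mem, by simp⟩

theorem g_mem {j : ℕ} {y : S.carrier} (hy : y ∈ S.deg j) : K.g y ∈ P.deg j := by
  rw [K.deg_eq]
  exact Submodule.subset_span ⟨0, j, 1, y, by simp, A.one_mem, hy, by simp⟩

/-- contraction with a functional on the second factor -/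
noncomputable def contr (φ : S.carrier →ₗ[ℝ] ℝ) : P.carrier →ₗ[ℝ] A.carrier :=
  (TensorProduct.rid ℝ A.carrier).toLinearMap ∘ₗ (LinearMap.lTensor A.carrier φ) ∘ₗ
    (LinearEquiv.ofBijective _ K.bij).symm.toLinearMap

theorem contr_apply (φ : S.carrier →ₗ[ℝ] ℝ) (x : A.carrier) (y : S.carrier) :
    K.contr φ (K.f x * K.g y) = φ y • x := by
  have h : (LinearEquiv.ofBijective _ K.bij).symm (K.f x * K.g y) = x ⊗ₜ[ℝ] y := by
    rw [LinearEquiv.symm_apply_eq]
    rfl
  simp only [contr, LinearMap.comp_apply, LinearEquiv.coe_coe]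
  rw [h]
  simp

theorem contr_f (φ : S.carrier →ₗ[ℝ] ℝ) (x : A.carrier) : K.contr φ (K.f x) = φ 1 • x := by
  rw [← K.contr_apply, map_one, mul_one]

theorem contr_g (φ : S.carrier →ₗ[ℝ] ℝ) (y : S.carrier) : K.contr φ (K.g y) = φ y • 1 := by
  rw [← K.contr_apply, map_one, one_mul]

theorem mul_ne_zero {x : A.carrier} {y : S.carrier} (hx : x ≠ 0) (hy : y ≠ 0) :
    K.f x * K.g y ≠ 0 := by
  obtain ⟨φ, hφ⟩ := exists_dual_eq_one hy
  intro h
  have h1 := K.contr_apply φ x y
  rw [h, map_zero, hφ, one_smul] at h1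
  exact hx h1.symm

/-- the mixed part of degree `(1, 1)` -/
def mixed : Submodule ℝ P.carrier := Submodule.span ℝ {p | ∃ (x : A.carrier) (y : S.carrier),
      x ∈ A.deg 1 ∧ y ∈ S.deg 1 ∧ p = K.f x * K.g y}

theorem mixed_le : K.mixed ≤ P.deg 2 := by
  refine Submodule.span_le.2 ?_
  rintro p ⟨x, y, hx, hy, rfl⟩
  exact P.mul_mem (K.f_mem hx) (K.g_mem hy)

theorem mixed_act (γ : F) {α : P.carrier} (hα : α ∈ K.mixed) : P.act γ α ∈ K.mixed := by
  refine Submodule.span_induction (p := fun α _ => P.act γ α ∈ K.mixed) ?_ ?_ ?_ ?_ hα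
  · rintro p ⟨x, y, hx, hy, rfl⟩
    rw [map_mul, ← K.f_act, ← K.g_act]
    exact Submodule.subset_span ⟨_, _, A.act_mem γ hx, S.act_mem γ hy, rfl⟩
  · rw [map_zero]; exact Submodule.zero_mem _
  · intro p p' _ _ h h'
    rw [map_add]; exact Submodule.add_mem _ h h'
  · intro c p _ h
    rw [map_smul]; exact Submodule.smul_mem _ c h

theorem mixed_contr {φ : S.carrier →ₗ[ℝ] ℝ} (hφ : ∀ y ∈ S.deg 1, φ y = 0) {α : P.carrier}
    (hα : α ∈ K.mixed) : K.contr φ α = 0 := by
  refine Submodule.span_induction (p := fun β _ => K.contr φ β = 0) ?_ ?_ ?_ ?_ hα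
  · rintro p ⟨x, y, hx, hy, rfl⟩
    rw [K.contr_apply, hφ y hy, zero_smul]
  · simp
  · intro p p' _ _ h h'
    rw [map_add, h, h', add_zero]
  · intro c p _ h
    rw [map_smul, h, smul_zero]

theorem decomp {m n : ℕ} (hA : HasDim A m) (hS : HasDim S n) {a : P.carrier}
    (ha : a ∈ P.deg 2) :
    ∃ a₀ ∈ A.deg 2, ∃ b ∈ S.deg 2, ∃ α ∈ K.mixed, a = K.f a₀ + K.g b + α := by
  rw [K.deg_eq] at ha
  refine Submodule.span_induction (p := fun a _ => ∃ a₀ ∈ A.deg 2, ∃ b ∈ S.deg 2,
    ∃ α ∈ K.mixed, a = K.f a₀ + K.g b + α) ?_ ?_ ?_ ?_ ha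
  · rintro p ⟨i, j, x, y, hij, hx, hy, rfl⟩
    have hj : j ≤ 2 := by omega
    interval_cases j
    · obtain rfl : i = 2 := by omega
      rw [hS.2.1, Submodule.mem_span_singleton] at hy
      obtain ⟨c, rfl⟩ := hy
      refine ⟨c • x, (A.deg 2).smul_mem c hx, 0, (S.deg 2).zero_mem, 0, Submodule.zero_mem _, ?_⟩
      simp
    · obtain rfl : i = 1 := by omega
      refine ⟨0, (A.deg 2).zero_mem, 0, (S.deg 2).zero_mem, _,
        Submodule.subset_span ⟨x, y, hx, hy, rfl⟩, ?_⟩
      simp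
    · obtain rfl : i = 0 := by omega
      rw [hA.2.1, Submodule.mem_span_singleton] at hx
      obtain ⟨c, rfl⟩ := hx
      refine ⟨0, (A.deg 2).zero_mem, c • y, (S.deg 2).smul_mem c hy, 0,
        Submodule.zero_mem _, ?_⟩
      simp
  · exact ⟨0, (A.deg 2).zero_mem, 0, (S.deg 2).zero_mem, 0, Submodule.zero_mem _, by simp⟩
  · rintro p p' _ _ ⟨x, hx, y, hy, β, hβ, rfl⟩ ⟨x', hx', y', hy', β', hβ', rfl⟩
    refine ⟨x + x', (A.deg 2).add_mem hx hx', y + y', (S.deg 2).add_mem hy hy', β + β',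
      Submodule.add_mem _ hβ hβ', ?_⟩
    rw [map_add, map_add]
    abel
  · rintro c p _ ⟨x, hx, y, hy, β, hβ, rfl⟩
    refine ⟨c • x, (A.deg 2).smul_mem c hx, c • y, (S.deg 2).smul_mem c hy, c • β,
      Submodule.smul_mem _ c hβ, ?_⟩
    rw [map_smul, map_smul, smul_add, smul_add]

/-- products of `i` invariant classes of the first factor and `j` of the second -/
def T (i j : ℕ) : Submodule ℝ P.carrier := Submodule.span ℝ {p | ∃ (x : A.carrier)
  (y : S.carrier), x ∈ A.inv ^ i ∧ y ∈ S.inv ^ j ∧ p = K.f x * K.g y}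

theorem T_mul {i j i' j' : ℕ} {p p' : P.carrier} (hp : p ∈ K.T i j) (hp' : p' ∈ K.T i' j') :
    p * p' ∈ K.T (i + i') (j + j') := by
  have h : K.T i j * K.T i' j' ≤ K.T (i + i') (j + j') := by
    rw [T, T, Submodule.span_mul_span]
    refine Submodule.span_le.2 ?_
    rintro _ ⟨_, ⟨x, y, hx, hy, rfl⟩, _, ⟨x', y', hx', hy', rfl⟩, rfl⟩
    refine Submodule.subset_span ⟨x * x', y * y', ?_, ?_, ?_⟩
    · rw [pow_add]; exact Submodule.mul_mem_mul hx hx'
    · rw [pow_add]; exact Submodule.mul_mem_mul hy hy'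
    · have hc : K.g y * K.f x' = K.f x' * K.g y :=
        P.comm_even (even_two_mul i') (K.f_mem (A.inv_pow_le i' hx'))
          (K.g_mem (S.inv_pow_le j hy))
      change K.f x * K.g y * (K.f x' * K.g y') = K.f (x * x') * K.g (y * y')
      rw [map_mul, map_mul]
      calc K.f x * K.g y * (K.f x' * K.g y') = K.f x * (K.g y * K.f x') * K.g y' := by
            noncomm_ring
        _ = _ := by rw [hc]; noncomm_ring
  exact h (Submodule.mul_mem_mul hp hp')

theorem T_pow {i j : ℕ} {p : P.carrier} (hp : p ∈ K.T i j) (k : ℕ) :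
    p ^ k ∈ K.T (k * i) (k * j) := by
  induction k with
  | zero =>
    refine Submodule.subset_span ⟨1, 1, ?_, ?_, ?_⟩
    · rw [zero_mul, pow_zero]; exact Submodule.one_le.1 le_rfl
    · rw [zero_mul, pow_zero]; exact Submodule.one_le.1 le_rfl
    · simp
  | succ k ih =>
    rw [pow_succ, add_mul, add_mul, one_mul, one_mul]
    exact K.T_mul ih hp

theorem T_mixed {m n : ℕ} (hA : HasDim A m) (hS : HasDim S n) {i j : ℕ}
    (hij : i + j + 1 = m + n) {p α : P.carrier} (hp : p ∈ K.T i j) (hα : α ∈ K.mixed) :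
    p * α = 0 := by
  have h : K.T i j * K.mixed ≤ ⊥ := by
    rw [T, mixed, Submodule.span_mul_span]
    refine Submodule.span_le.2 ?_
    rintro _ ⟨_, ⟨x, y, hx, hy, rfl⟩, _, ⟨x', y', hx', hy', rfl⟩, rfl⟩
    have hx2 := A.inv_pow_le i hx
    have hy2 := S.inv_pow_le j hy
    have hc : K.g y * K.f x' = K.f x' * K.g y :=
      (P.comm_even (even_two_mul j) (K.g_mem hy2) (K.f_mem hx')).symm
    have h1 : K.f x * K.g y * (K.f x' * K.g y') = K.f (x * x') * K.g (y * y') := by
      rw [map_mul, map_mul]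
      calc K.f x * K.g y * (K.f x' * K.g y') = K.f x * (K.g y * K.f x') * K.g y' := by
            noncomm_ring
        _ = _ := by rw [hc]; noncomm_ring
    change K.f x * K.g y * (K.f x' * K.g y') ∈ (⊥ : Submodule ℝ P.carrier)
    rw [Submodule.mem_bot, h1]
    by_cases him : m ≤ i
    · have h2 := A.mul_mem hx2 hx'
      rw [hA.2.2 _ (by omega), Submodule.mem_bot] at h2
      rw [h2, map_zero, zero_mul]
    · have h2 := S.mul_mem hy2 hy'
      rw [hS.2.2 _ (by omega), Submodule.mem_bot] at h2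
      rw [h2, map_zero, mul_zero]
  have h3 := h (Submodule.mul_mem_mul hp hα)
  rwa [Submodule.mem_bot] at h3

/-- The square of an invariant mixed class is a sum of products of invariant classes. -/
theorem sq_mem (hfix : FixesProducts S) {α : P.carrier} (hα : α ∈ K.mixed)
    (hinv : ∀ γ, P.act γ α = α) : α * α ∈ K.T 1 1 := by
  classical
  let R : Submodule ℝ S.carrier := S.deg 1 * S.deg 1
  have hRfix : ∀ γ, ∀ y ∈ R, S.act γ y = y := by
    intro γ y hy
    refine Submodule.mul_induction_on (C := fun y => S.act γ y = y) hy ?_ ?_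
    · intro y hy y' hy'
      exact hfix γ y hy y' hy'
    · intro y y' h h'
      rw [map_add, h, h']
  have hRdeg : R ≤ S.deg 2 := Submodule.mul_le.2 fun y hy y' hy' => S.mul_mem hy hy'
  have hRinv : R ≤ S.inv := fun y hy => ⟨hRdeg hy, fun γ => hRfix γ y hy⟩
  let Φ : (A.deg 2) ⊗[ℝ] R →ₗ[ℝ] P.carrier := TensorProduct.lift
    ((LinearMap.mul ℝ P.carrier).compl₁₂ (K.f.toLinearMap ∘ₗ (A.deg 2).subtype)
      (K.g.toLinearMap ∘ₗ R.subtype))
  have hLL : K.mixed * K.mixed ≤ LinearMap.range Φ := by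
    rw [mixed, Submodule.span_mul_span]
    refine Submodule.span_le.2 ?_
    rintro p ⟨_, ⟨x, y, hx, hy, rfl⟩, _, ⟨x', y', hx', hy', rfl⟩, rfl⟩
    have hcm : K.g y * K.f x' = -(K.f x' * K.g y) := by
      rw [P.comm (K.f_mem hx') (K.g_mem hy)]
      simp
    have : K.f x * K.g y * (K.f x' * K.g y') = K.f (-(x * x')) * K.g (y * y') := by
      rw [map_neg, map_mul, map_mul]
      calc K.f x * K.g y * (K.f x' * K.g y') = K.f x * (K.g y * K.f x') * K.g y' := by
            noncomm_ring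
        _ = _ := by rw [hcm]; noncomm_ring
    refine ⟨⟨-(x * x'), (A.deg 2).neg_mem (A.mul_mem hx hx')⟩ ⊗ₜ[ℝ]
      ⟨y * y', Submodule.mul_mem_mul hy hy'⟩, ?_⟩
    change K.f (-(x * x')) * K.g (y * y') = K.f x * K.g y * (K.f x' * K.g y')
    rw [this]
  obtain ⟨t, ht⟩ := hLL (Submodule.mul_mem_mul hα hα)
  let b := Module.Basis.ofVectorSpace ℝ R
  obtain ⟨c, rfl⟩ := TensorProduct.eq_repr_basis_right b t
  have hsum : α * α = ∑ i ∈ c.support, K.f (c i) * K.g (b i) := by
    rw [← ht, Finsupp.sum, map_sum]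
    rfl
  have hact : ∀ γ, P.act γ (α * α) = ∑ i ∈ c.support, K.f (A.act γ (c i)) * K.g (b i) := by
    intro γ
    rw [hsum, map_sum]
    refine Finset.sum_congr rfl fun i _ => ?_
    rw [map_mul, ← K.f_act, ← K.g_act, hRfix γ (b i) (b i).2]
  have hcinv : ∀ k ∈ c.support, ∀ γ, A.act γ (c k) = c k := by
    intro k hk γ
    obtain ⟨φ, hφ⟩ := LinearMap.exists_extend (b.coord k)
    have hφb : ∀ i, φ (b i) = if i = k then 1 else 0 := by
      intro i
      have h1 := LinearMap.congr_fun hφ (b i)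
      rw [LinearMap.comp_apply, Submodule.subtype_apply, Module.Basis.coord_apply,
        Module.Basis.repr_self, Finsupp.single_apply] at h1
      exact h1
    have h1 : P.act γ (α * α) = α * α := by rw [map_mul, hinv]
    rw [hact γ, hsum] at h1
    have h2 := congrArg (K.contr φ) h1
    rw [map_sum, map_sum] at h2
    simp only [K.contr_apply, hφb, ite_smul, one_smul, zero_smul] at h2
    rw [Finset.sum_ite_eq', Finset.sum_ite_eq', if_pos hk, if_pos hk] at h2
    exact h2
  rw [hsum]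
  refine Submodule.sum_mem _ fun i hi => ?_
  refine Submodule.subset_span ⟨c i, b i, ?_, ?_, rfl⟩
  · rw [pow_one]; exact ⟨(c i).2, hcinv i hi⟩
  · rw [pow_one]; exact hRinv (b i).2

end Kuenneth

/-- one factor -/
theorem one_step {A S P : Coh F} (K : Kuenneth A S P) {m n : ℕ} (hA : HasDim A m)
    (hS : HasDim S n) (hfix : FixesProducts S) :
    HasClass P (m + n) ↔ HasClass A m ∧ HasClass S n := by
  constructor
  · rintro ⟨a, ha, hinv, hne⟩
    obtain ⟨a₀, ha₀, b, hb, α, hα, rfl⟩ := K.decomp hA hS ha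
    -- invariance of `a₀`
    have hinv0 : ∀ γ, A.act γ a₀ = a₀ := by
      intro γ
      obtain ⟨ψ, hψ⟩ := exists_dual_eq_one hS.1
      obtain ⟨φ, hφ1, hφ2⟩ := exists_functional S 0 ψ
      have h1 := congrArg (K.contr φ) (hinv γ)
      simp only [map_add, ← K.f_act, ← K.g_act, K.contr_f, K.contr_g] at h1
      rw [hφ1 1 S.one_mem, hψ, K.mixed_contr (hφ2 1 (by norm_num)) hα,
        K.mixed_contr (hφ2 1 (by norm_num)) (K.mixed_act γ hα), hφ2 2 (by norm_num) b hb,
        hφ2 2 (by norm_num) _ (S.act_mem γ hb)] at h1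
      simpa using h1
    have hinvb : ∀ γ, S.act γ b = b := by
      intro γ
      have h0 : ∀ ψ : S.carrier →ₗ[ℝ] ℝ, ψ (S.act γ b - b) = 0 := by
        intro ψ
        obtain ⟨φ, hφ1, hφ2⟩ := exists_functional S 2 ψ
        have h1 := congrArg (K.contr φ) (hinv γ)
        simp only [map_add, ← K.f_act, ← K.g_act, K.contr_f, K.contr_g] at h1
        rw [hφ2 0 (by norm_num) 1 S.one_mem, K.mixed_contr (hφ2 1 (by norm_num)) hα,
          K.mixed_contr (hφ2 1 (by norm_num)) (K.mixed_act γ hα), hφ1 b hb,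
          hφ1 _ (S.act_mem γ hb)] at h1
        have h2 : (ψ (S.act γ b) - ψ b) • (1 : A.carrier) = 0 := by
          rw [sub_smul, sub_eq_zero]
          simpa using h1
        rcases smul_eq_zero.1 h2 with h3 | h3
        · rw [map_sub, h3]
        · exact absurd h3 hA.1
      exact sub_eq_zero.1 ((Module.forall_dual_apply_eq_zero_iff ℝ _).1 h0)
    have hinvα : ∀ γ, P.act γ α = α := by
      intro γ
      have h1 := hinv γ
      rw [map_add, map_add, ← K.f_act, ← K.g_act, hinv0, hinvb] at h1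
      exact add_left_cancel h1
    have hu : K.f a₀ ∈ K.T 1 0 := Submodule.subset_span ⟨a₀, 1, by rw [pow_one]; exact ⟨ha₀, hinv0⟩,
      by rw [pow_zero]; exact Submodule.one_le.1 le_rfl, by simp⟩
    have hw : K.g b ∈ K.T 0 1 := Submodule.subset_span ⟨1, b,
      by rw [pow_zero]; exact Submodule.one_le.1 le_rfl, by rw [pow_one]; exact ⟨hb, hinvb⟩,
      by simp⟩
    have hsq := K.sq_mem hfix hα hinvα
    have hev : Even 2 := ⟨1, rfl⟩
    have hαP := K.mixed_le hα
    have hc1 : Commute (K.f a₀ + K.g b) α :=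
      (P.comm_even hev ((P.deg 2).add_mem (K.f_mem ha₀) (K.g_mem hb)) hαP).symm
    have hc2 : Commute (K.f a₀) (K.g b) := (P.comm_even hev (K.f_mem ha₀) (K.g_mem hb)).symm
    obtain ⟨e, c, hec, h1⟩ := exists_term (X := 1) hc1 (by simpa using hne)
    rw [mul_one] at h1
    obtain ⟨i, j, hij, h2⟩ := exists_term hc2 h1
    have huw : K.f a₀ ^ i * K.g b ^ j ∈ K.T i j := by
      have h3 := K.T_mul (K.T_pow hu i) (K.T_pow hw j)
      simpa using h3
    rcases Nat.even_or_odd' c with ⟨l, rfl | rfl⟩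
    · rw [pow_mul, pow_two] at h2
      have h3 : K.f a₀ ^ i * K.g b ^ j * (α * α) ^ l ∈ K.T (i + l) (j + l) := by
        have h4 := K.T_mul huw (K.T_pow hsq l)
        simpa using h4
      have h5 : ∃ x y, x ∈ A.inv ^ (i + l) ∧ y ∈ S.inv ^ (j + l) ∧ x ≠ 0 ∧ y ≠ 0 := by
        by_contra hcon
        push Not at hcon
        apply h2
        have h6 : K.T (i + l) (j + l) ≤ ⊥ := by
          refine Submodule.span_le.2 ?_
          rintro p ⟨x, y, hx, hy, rfl⟩
          change _ ∈ (⊥ : Submodule ℝ P.carrier)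
          rw [Submodule.mem_bot]
          by_cases hx0 : x = 0
          · rw [hx0, map_zero, zero_mul]
          · rw [hcon x y hx hy hx0, map_zero, mul_zero]
        exact (Submodule.mem_bot ℝ).1 (h6 h3)
      obtain ⟨x, y, hx, hy, hx0, hy0⟩ := h5
      have hil : i + l ≤ m := by
        by_contra hgt
        have h6 := A.inv_pow_le _ hx
        rw [hA.2.2 _ (by omega), Submodule.mem_bot] at h6
        exact hx0 h6
      have hjl : j + l ≤ n := by
        by_contra hgt
        have h6 := S.inv_pow_le _ hy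
        rw [hS.2.2 _ (by omega), Submodule.mem_bot] at h6
        exact hy0 h6
      obtain rfl : m = i + l := by omega
      obtain rfl : n = j + l := by omega
      exact ⟨A.hasClass_of_ne (fun h => hx0 (by rw [h] at hx; exact (Submodule.mem_bot ℝ).1 hx)),
        S.hasClass_of_ne (fun h => hy0 (by rw [h] at hy; exact (Submodule.mem_bot ℝ).1 hy))⟩
    · exfalso
      apply h2
      rw [pow_succ, pow_mul, pow_two, ← mul_assoc]
      have h3 : K.f a₀ ^ i * K.g b ^ j * (α * α) ^ l ∈ K.T (i + l) (j + l) := by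
        have h4 := K.T_mul huw (K.T_pow hsq l)
        simpa using h4
      exact K.T_mixed hA hS (by omega) h3 hα
  · rintro ⟨⟨a, ha, hainv, hane⟩, ⟨b, hb, hbinv, hbne⟩⟩
    refine ⟨K.f a + K.g b, (P.deg 2).add_mem (K.f_mem ha) (K.g_mem hb), ?_, ?_⟩
    · intro γ
      rw [map_add, ← K.f_act, ← K.g_act, hainv, hbinv]
    · have hc2 : Commute (K.f a) (K.g b) :=
        (P.comm_even ⟨1, rfl⟩ (K.f_mem ha) (K.g_mem hb)).symm
      have hpowA : ∀ k, a ^ k ∈ A.deg (2 * k) := fun k =>
        A.inv_pow_le k (Submodule.pow_mem_pow A.inv ⟨ha, hainv⟩ k)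
      have hpowS : ∀ k, b ^ k ∈ S.deg (2 * k) := fun k =>
        S.inv_pow_le k (Submodule.pow_mem_pow S.inv ⟨hb, hbinv⟩ k)
      rw [hc2.add_pow, Finset.sum_eq_single m]
      · rw [Nat.add_sub_cancel_left, ← map_pow, ← map_pow, ← nsmul_eq_mul']
        intro h
        have h1 : (((m + n).choose m : ℕ) : ℝ) • (K.f (a ^ m) * K.g (b ^ n)) = 0 := by
          rw [Nat.cast_smul_eq_nsmul]; exact h
        rcases smul_eq_zero.1 h1 with h2 | h2
        · have : 0 < (m + n).choose m := Nat.choose_pos (by omega)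
          exact absurd h2 (by positivity)
        · exact K.mul_ne_zero hane hbne h2
      · intro k hk hkm
        have hk' := Finset.mem_range.1 hk
        rw [← map_pow, ← map_pow]
        by_cases hlt : m < k
        · have h2 := hpowA k
          rw [hA.2.2 _ (by omega), Submodule.mem_bot] at h2
          rw [h2, map_zero, zero_mul, zero_mul]
        · have h2 := hpowS (m + n - k)
          rw [hS.2.2 _ (by omega), Submodule.mem_bot] at h2
          rw [h2, map_zero, mul_zero, zero_mul]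
      · intro h
        exact absurd (Finset.mem_range.2 (by omega)) h

theorem hasDim_step {A S P : Coh F} (K : Kuenneth A S P) {m n : ℕ} (hA : HasDim A m)
    (hS : HasDim S n) : HasDim P (m + n) := by
  refine ⟨?_, ?_, ?_⟩
  · have h := K.mul_ne_zero hA.1 hS.1
    rwa [map_one, map_one, one_mul] at h
  · apply le_antisymm
    · rw [K.deg_eq]
      refine Submodule.span_le.2 ?_
      rintro p ⟨i, j, x, y, hij, hx, hy, rfl⟩
      obtain rfl : i = 0 := by omega
      obtain rfl : j = 0 := by omega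
      rw [hA.2.1, Submodule.mem_span_singleton] at hx
      rw [hS.2.1, Submodule.mem_span_singleton] at hy
      obtain ⟨c, rfl⟩ := hx
      obtain ⟨d, rfl⟩ := hy
      change _ ∈ Submodule.span ℝ {(1 : P.carrier)}
      rw [Submodule.mem_span_singleton]
      refine ⟨c * d, ?_⟩
      rw [map_smul, map_smul, map_one, map_one, smul_mul_smul_comm, one_mul]
    · rw [Submodule.span_singleton_le_iff_mem]
      exact P.one_mem
  · intro k hk
    rw [K.deg_eq, Submodule.span_eq_bot]
    rintro p ⟨i, j, x, y, hij, hx, hy, rfl⟩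
    by_cases hj : 2 * n < j
    · rw [hS.2.2 j hj, Submodule.mem_bot] at hy
      rw [hy, map_zero, mul_zero]
    · rw [hA.2.2 i (by omega), Submodule.mem_bot] at hx
      rw [hx, map_zero, zero_mul]

section Torus

open ExteriorAlgebra

variable {W : Type} [AddCommGroup W] [Module ℝ W]

theorem swap_one (w : W) (j : ℕ) : ∀ y ∈ ⋀[ℝ]^j W,
    y * ι ℝ w = (-1 : ℝ) ^ j • (ι ℝ w * y) := by
  induction j with
  | zero =>
    intro y hy
    rw [exteriorPower, pow_zero] at hy
    obtain ⟨c, rfl⟩ := Submodule.mem_one.1 hy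
    rw [pow_zero, one_smul, Algebra.commutes]
  | succ j ih =>
    intro y hy
    rw [exteriorPower, pow_succ] at hy
    refine Submodule.mul_induction_on
      (C := fun y => y * ι ℝ w = (-1 : ℝ) ^ (j + 1) • (ι ℝ w * y)) hy ?_ ?_
    · rintro z hz _ ⟨v, rfl⟩
      have h1 : ι ℝ v * ι ℝ w = -(ι ℝ w * ι ℝ v) := eq_neg_of_add_eq_zero_left
        (ExteriorAlgebra.ι_add_mul_swap v w)
      rw [mul_assoc, h1, mul_neg, ← mul_assoc, ih z hz, pow_succ, smul_mul_assoc, mul_neg_one,
        neg_smul, mul_assoc]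
    · intro y z hy hz
      rw [add_mul, mul_add, smul_add, hy, hz]

theorem ext_comm {i j : ℕ} : ∀ x ∈ ⋀[ℝ]^i W, ∀ y ∈ ⋀[ℝ]^j W,
    y * x = (-1 : ℝ) ^ (i * j) • (x * y) := by
  induction i with
  | zero =>
    intro x hx y _
    rw [exteriorPower, pow_zero] at hx
    obtain ⟨c, rfl⟩ := Submodule.mem_one.1 hx
    rw [zero_mul, pow_zero, one_smul, Algebra.commutes]
  | succ i ih =>
    intro x hx y hy
    rw [exteriorPower, pow_succ] at hx
    refine Submodule.mul_induction_on
      (C := fun x => y * x = (-1 : ℝ) ^ ((i + 1) * j) • (x * y)) hx ?_ ?_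
    · rintro z hz _ ⟨w, rfl⟩
      rw [← mul_assoc, ih z hz y hy, smul_mul_assoc, mul_assoc, swap_one w j y hy, mul_smul_comm,
        smul_smul, add_mul, one_mul, pow_add, mul_assoc]
    · intro x z hx hz
      rw [add_mul x z y, mul_add, smul_add, hx, hz]

theorem map_mem (f : W →ₗ[ℝ] W) {i : ℕ} {x : ExteriorAlgebra ℝ W} (hx : x ∈ ⋀[ℝ]^i W) :
    ExteriorAlgebra.map f x ∈ ⋀[ℝ]^i W := by
  have h : Submodule.map (ExteriorAlgebra.map f).toLinearMap (⋀[ℝ]^i W) ≤ ⋀[ℝ]^i W := by
    rw [exteriorPower, Submodule.map_pow]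
    refine pow_le_pow_left' ?_ i
    rintro _ ⟨_, ⟨w, rfl⟩, rfl⟩
    exact ⟨f w, by simp⟩
  exact h ⟨x, hx, rfl⟩

theorem ext_internal : DirectSum.IsInternal (fun i : ℕ => ⋀[ℝ]^i W) :=
  DirectSum.Decomposition.isInternal _

theorem ext_one : (1 : ExteriorAlgebra ℝ W) ∈ ⋀[ℝ]^0 W := SetLike.GradedOne.one_mem

theorem ext_mul {i j : ℕ} {x y : ExteriorAlgebra ℝ W} (hx : x ∈ ⋀[ℝ]^i W)
    (hy : y ∈ ⋀[ℝ]^j W) : x * y ∈ ⋀[ℝ]^(i + j) W := SetLike.GradedMul.mul_mem hx hy

theorem ext_comm' {i j : ℕ} {x y : ExteriorAlgebra ℝ W} (hx : x ∈ ⋀[ℝ]^i W)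
    (hy : y ∈ ⋀[ℝ]^j W) : y * x = (-1 : ℝ) ^ (i * j) • (x * y) := ext_comm x hx y hy

/-- The real cohomology `⋀ V*` of a torus `V / Λ`, on which `F` acts by affine maps with linear
parts `ρ γ`. -/
noncomputable def torus {V : Type} [AddCommGroup V] [Module ℝ V] (ρ : F → V →ₗ[ℝ] V) :
    Coh F where
  carrier := ExteriorAlgebra ℝ (Module.Dual ℝ V)
  deg i := ⋀[ℝ]^i (Module.Dual ℝ V)
  internal := ext_internal
  one_mem := ext_one
  mul_mem := ext_mul
  comm := ext_comm'
  act γ := ExteriorAlgebra.map (ρ γ).dualMap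
  act_mem := fun γ => map_mem (ρ γ).dualMap

/-- There is a linear symplectic form on `V` invariant under all `ρ γ`. -/
def InvariantForm {V : Type} [AddCommGroup V] [Module ℝ V] (ρ : F → V →ₗ[ℝ] V) : Prop :=
  ∃ ω : V →ₗ[ℝ] V →ₗ[ℝ] ℝ, (∀ v, ω v v = 0) ∧ (∀ γ v w, ω (ρ γ v) (ρ γ w) = ω v w) ∧
    ∀ v, (∀ w, ω v w = 0) → v = 0

/-- contraction with a functional -/
noncomputable abbrev con (d : Module.Dual ℝ W) : ExteriorAlgebra ℝ W →ₗ[ℝ] ExteriorAlgebra ℝ W :=
  CliffordAlgebra.contractLeft (Q := (0 : QuadraticForm ℝ W)) d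

theorem con_ι_mul (d : Module.Dual ℝ W) (a : W) (b : ExteriorAlgebra ℝ W) :
    con d (ι ℝ a * b) = d a • b - ι ℝ a * con d b := CliffordAlgebra.contractLeft_ι_mul ..

theorem con_ι (d : Module.Dual ℝ W) (a : W) : con d (ι ℝ a) = algebraMap ℝ _ (d a) :=
  CliffordAlgebra.contractLeft_ι ..

theorem con_one (d : Module.Dual ℝ W) : con d (1 : ExteriorAlgebra ℝ W) = 0 :=
  CliffordAlgebra.contractLeft_one ..

theorem con_mul {ω : ExteriorAlgebra ℝ W} (hω : ω ∈ ⋀[ℝ]^2 W) (d : Module.Dual ℝ W)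
    (c : ExteriorAlgebra ℝ W) : con d (ω * c) = con d ω * c + ω * con d c := by
  rw [exteriorPower, pow_two] at hω
  refine Submodule.mul_induction_on
    (C := fun ω => con d (ω * c) = con d ω * c + ω * con d c) hω ?_ ?_
  · rintro _ ⟨a, rfl⟩ _ ⟨b, rfl⟩
    rw [mul_assoc, con_ι_mul, con_ι_mul, con_ι_mul, con_ι, Algebra.algebraMap_eq_smul_one,
      mul_sub, sub_mul, smul_mul_assoc, mul_smul_comm, mul_smul_comm, mul_one, smul_mul_assoc,
      mul_assoc]
    abel
  · intro x y hx hy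
    rw [add_mul, map_add, map_add, hx, hy, add_mul, add_mul]
    abel

theorem con_pow {ω : ExteriorAlgebra ℝ W} (hω : ω ∈ ⋀[ℝ]^2 W) {d : Module.Dual ℝ W}
    (h : con d ω = 0) (k : ℕ) : con d (ω ^ k) = 0 := by
  induction k with
  | zero => rw [pow_zero, con_one]
  | succ k ih => rw [pow_succ', con_mul hω, h, ih, zero_mul, mul_zero, add_zero]

theorem ext_high [FiniteDimensional ℝ W] {n : ℕ} (hn : Module.finrank ℝ W < n) :
    ⋀[ℝ]^n W = ⊥ := by
  rw [← ExteriorAlgebra.ιMulti_span_fixedDegree, Submodule.span_eq_bot]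
  rintro _ ⟨v, rfl⟩
  apply AlternatingMap.map_linearDependent
  intro hli
  have := hli.fintype_card_le_finrank
  rw [Fintype.card_fin] at this
  omega

theorem nondeg [FiniteDimensional ℝ W] {m : ℕ} (hm : Module.finrank ℝ W = 2 * m)
    {ω : ExteriorAlgebra ℝ W} (hω : ω ∈ ⋀[ℝ]^2 W) (hne : ω ^ m ≠ 0) {d : Module.Dual ℝ W}
    (h : con d ω = 0) : d = 0 := by
  by_contra hd
  obtain ⟨w, hw⟩ : ∃ w, d w ≠ 0 := by
    by_contra hcon
    push Not at hcon
    exact hd (LinearMap.ext hcon)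
  apply hne
  have h1 : ω ^ m ∈ ⋀[ℝ]^(2 * m) W := by
    rw [exteriorPower, pow_mul]
    exact Submodule.pow_mem_pow _ hω m
  have h2 : ι ℝ w * ω ^ m ∈ ⋀[ℝ]^(1 + 2 * m) W := by
    rw [exteriorPower, pow_add, pow_one]
    exact Submodule.mul_mem_mul ⟨w, rfl⟩ h1
  rw [ext_high (by omega), Submodule.mem_bot] at h2
  have h3 := con_ι_mul d w (ω ^ m)
  rw [h2, map_zero, con_pow hω h, mul_zero, sub_zero] at h3
  exact (smul_eq_zero.1 h3.symm).resolve_left hw

theorem con_map {W' : Type} [AddCommGroup W'] [Module ℝ W'] (f : W →ₗ[ℝ] W')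
    (d : Module.Dual ℝ W') (x : ExteriorAlgebra ℝ W) :
    con d (ExteriorAlgebra.map f x) = ExteriorAlgebra.map f (con (d ∘ₗ f) x) := by
  induction x using CliffordAlgebra.left_induction with
  | algebraMap r =>
    rw [AlgHom.commutes, Algebra.algebraMap_eq_smul_one, Algebra.algebraMap_eq_smul_one,
      map_smul, map_smul, con_one, con_one, smul_zero, smul_zero, map_zero]
  | add x y hx hy => rw [map_add, map_add, map_add, map_add, hx, hy]
  | ι_mul x m hx =>
    change con d (ExteriorAlgebra.map f (ι ℝ m * x)) =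
      ExteriorAlgebra.map f (con (d ∘ₗ f) (ι ℝ m * x))
    rw [map_mul, ExteriorAlgebra.map_apply_ι, con_ι_mul, con_ι_mul, hx, map_sub, map_smul,
      map_mul, ExteriorAlgebra.map_apply_ι]
    rfl

theorem linear_form_aux {V : Type} [AddCommGroup V] [Module ℝ V] [FiniteDimensional ℝ V]
    (ρ : F → V →ₗ[ℝ] V) {m : ℕ} (hm : Module.finrank ℝ V = 2 * m)
    (a : ExteriorAlgebra ℝ (Module.Dual ℝ V)) (ha : a ∈ ⋀[ℝ]^2 (Module.Dual ℝ V))
    (hinv : ∀ γ, ExteriorAlgebra.map (ρ γ).dualMap a = a) (hne : a ^ m ≠ 0) :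
    ∃ ω : V →ₗ[ℝ] V →ₗ[ℝ] ℝ, (∀ v, ω v v = 0) ∧ (∀ γ v w, ω (ρ γ v) (ρ γ w) = ω v w) ∧
      ∀ v, (∀ w, ω v w = 0) → v = 0 := by
  let ev : V →ₗ[ℝ] Module.Dual ℝ (Module.Dual ℝ V) := Module.Dual.eval ℝ V
  let C : V →ₗ[ℝ] ExteriorAlgebra ℝ (Module.Dual ℝ V) →ₗ[ℝ]
      ExteriorAlgebra ℝ (Module.Dual ℝ V) :=
    (CliffordAlgebra.contractLeft (Q := (0 : QuadraticForm ℝ (Module.Dual ℝ V)))) ∘ₗ ev
  let inv0 : ExteriorAlgebra ℝ (Module.Dual ℝ V) →ₗ[ℝ] ℝ :=
    (ExteriorAlgebra.algebraMapInv : ExteriorAlgebra ℝ (Module.Dual ℝ V) →ₐ[ℝ] ℝ).toLinearMap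
  let ω : V →ₗ[ℝ] V →ₗ[ℝ] ℝ := LinearMap.mk₂ ℝ (fun v w => inv0 (C w (C v a)))
    (by intros; simp only [map_add, LinearMap.add_apply])
    (by intros; simp only [map_smul, LinearMap.smul_apply])
    (by intros; simp only [map_add, LinearMap.add_apply])
    (by intros; simp only [map_smul, LinearMap.smul_apply])
  have hω : ∀ v w, ω v w = inv0 (C w (C v a)) := fun v w => rfl
  refine ⟨ω, ?_, ?_, ?_⟩
  · intro v
    rw [hω]
    have : C v (C v a) = 0 := CliffordAlgebra.contractLeft_contractLeft ..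
    rw [this, map_zero]
  · intro γ v w
    rw [hω, hω]
    have h1 : ∀ (u : V) (x : ExteriorAlgebra ℝ (Module.Dual ℝ V)),
        ExteriorAlgebra.map (ρ γ).dualMap (C (ρ γ u) x) =
          C u (ExteriorAlgebra.map (ρ γ).dualMap x) := by
      intro u x
      exact (con_map (ρ γ).dualMap (ev u) x).symm
    have h2 : ∀ x : ExteriorAlgebra ℝ (Module.Dual ℝ V),
        inv0 (ExteriorAlgebra.map (ρ γ).dualMap x) = inv0 x := by
      intro x
      have : (ExteriorAlgebra.algebraMapInv : ExteriorAlgebra ℝ (Module.Dual ℝ V) →ₐ[ℝ] ℝ).comp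
          (ExteriorAlgebra.map (ρ γ).dualMap) = ExteriorAlgebra.algebraMapInv := by
        apply ExteriorAlgebra.hom_ext
        ext v
        simp [ExteriorAlgebra.algebraMapInv]
      exact congrArg (fun f => f x) this
    rw [← h2, h1, h1, hinv]
  · intro v hv
    have h3 : C v a = 0 := by
      have h4 : ∃ θ : Module.Dual ℝ V, C v a = ι ℝ θ := by
        have h5 : a ∈ (LinearMap.range (ι ℝ : Module.Dual ℝ V →ₗ[ℝ] _)) *
            (LinearMap.range (ι ℝ : Module.Dual ℝ V →ₗ[ℝ] _)) := by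
          rw [← pow_two]; exact ha
        refine Submodule.mul_induction_on
          (C := fun a => ∃ θ : Module.Dual ℝ V, C v a = ι ℝ θ) h5 ?_ ?_
        · rintro _ ⟨x, rfl⟩ _ ⟨y, rfl⟩
          refine ⟨x v • y - y v • x, ?_⟩
          have h6 := con_ι_mul (ev v) x (ι ℝ y)
          rw [con_ι, Algebra.algebraMap_eq_smul_one, mul_smul_comm, mul_one] at h6
          rw [map_sub, map_smul, map_smul]
          exact h6
        · rintro x y ⟨θ, hθ⟩ ⟨θ', hθ'⟩
          exact ⟨θ + θ', by rw [map_add, map_add, hθ, hθ']⟩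
      obtain ⟨θ, hθ⟩ := h4
      have h7 : θ = 0 := by
        ext w
        have h8 := hv w
        rw [hω, hθ] at h8
        have h9 : C w (ι ℝ θ) = algebraMap ℝ _ (θ w) := con_ι (ev w) θ
        rw [h9] at h8
        exact ((ExteriorAlgebra.algebraMap_leftInverse (Module.Dual ℝ V) (θ w)).symm.trans h8)
      rw [hθ, h7, map_zero]
    have h10 : ev v = 0 := by
      refine nondeg (W := Module.Dual ℝ V) (m := m) ?_ ha hne h3
      rw [Subspace.dual_finrank_eq, hm]
    exact (Module.forall_dual_apply_eq_zero_iff ℝ v).1 fun φ => LinearMap.congr_fun h10 φ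

/-- An invariant class of degree `2` on the torus with non-zero top power gives an invariant linear
symplectic form on `V`. -/
theorem linear_form {V : Type} [AddCommGroup V] [Module ℝ V] [FiniteDimensional ℝ V]
    (ρ : F → V →ₗ[ℝ] V) {m : ℕ} (hm : Module.finrank ℝ V = 2 * m)
    (h : HasClass (torus ρ) m) : InvariantForm ρ := by
  obtain ⟨a, ha, hinv, hne⟩ := h
  exact linear_form_aux ρ hm a ha hinv hne

theorem torus_hasDim {V : Type} [AddCommGroup V] [Module ℝ V] [FiniteDimensional ℝ V]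
    (ρ : F → V →ₗ[ℝ] V) {m : ℕ} (hm : Module.finrank ℝ V = 2 * m) : HasDim (torus ρ) m := by
  refine ⟨?_, ?_, ?_⟩
  · intro h
    change (1 : ExteriorAlgebra ℝ (Module.Dual ℝ V)) = 0 at h
    exact one_ne_zero h
  · change ⋀[ℝ]^0 (Module.Dual ℝ V) = Submodule.span ℝ {1}
    rw [exteriorPower, pow_zero, Submodule.one_eq_span]
  · intro i hi
    exact ext_high (by rw [Subspace.dual_finrank_eq, hm]; exact hi)

end Torus

section Converse

open ExteriorAlgebra

variable {V : Type} [AddCommGroup V] [Module ℝ V] [FiniteDimensional ℝ V]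

omit [FiniteDimensional ℝ V] in
/-- Euler's identity -/
theorem euler {ι' : Type} [Fintype ι'] (b : Module.Basis ι' ℝ V) (j : ℕ) :
    ∀ x ∈ ⋀[ℝ]^j (Module.Dual ℝ V),
      ∑ i, ι ℝ (b.coord i) * con (Module.Dual.eval ℝ V (b i)) x = (j : ℝ) • x := by
  induction j with
  | zero =>
    intro x hx
    rw [exteriorPower, pow_zero] at hx
    obtain ⟨c, rfl⟩ := Submodule.mem_one.1 hx
    rw [Nat.cast_zero, zero_smul]
    refine Finset.sum_eq_zero fun i _ => ?_
    rw [Algebra.algebraMap_eq_smul_one, map_smul, con_one, smul_zero, mul_zero]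
  | succ j ih =>
    intro x hx
    rw [exteriorPower, pow_succ'] at hx
    refine Submodule.mul_induction_on (C := fun x =>
      ∑ i, ι ℝ (b.coord i) * con (Module.Dual.eval ℝ V (b i)) x = ((j + 1 : ℕ) : ℝ) • x) hx ?_ ?_
    · rintro _ ⟨θ, rfl⟩ z hz
      have h1 : ∀ i, ι ℝ (b.coord i) * con (Module.Dual.eval ℝ V (b i)) (ι ℝ θ * z) =
          ι ℝ (θ (b i) • b.coord i) * z +
            ι ℝ θ * (ι ℝ (b.coord i) * con (Module.Dual.eval ℝ V (b i)) z) := by
        intro i
        have h2 : ι ℝ (b.coord i) * ι ℝ θ = -(ι ℝ θ * ι ℝ (b.coord i)) :=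
          eq_neg_of_add_eq_zero_left (ExteriorAlgebra.ι_add_mul_swap _ _)
        rw [con_ι_mul, mul_sub, mul_smul_comm, map_smul, smul_mul_assoc, Module.Dual.eval_apply,
          ← mul_assoc (ι ℝ (b.coord i)) (ι ℝ θ), h2, neg_mul, mul_assoc]
        abel
      have h3 : ∑ i, θ (b i) • b.coord i = θ := by
        refine b.ext fun k => ?_
        rw [LinearMap.sum_apply, Finset.sum_eq_single k]
        · simp
        · intro i _ hik
          simp [hik.symm]
        · intro h; exact absurd (Finset.mem_univ k) h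
      rw [Finset.sum_congr rfl fun i _ => h1 i, Finset.sum_add_distrib, ← Finset.sum_mul,
        ← map_sum, h3, ← Finset.mul_sum, ih z hz, mul_smul_comm, Nat.cast_succ, add_smul, one_smul,
        add_comm]
    · intro x y hx hy
      simp only [map_add, mul_add, Finset.sum_add_distrib, smul_add] at hx hy ⊢
      rw [hx, hy]

theorem converse_form (ρ : F → V →ₗ[ℝ] V) {m : ℕ} (hm : Module.finrank ℝ V = 2 * m)
    (ω : V →ₗ[ℝ] V →ₗ[ℝ] ℝ) (halt : ∀ v, ω v v = 0)
    (hinv : ∀ γ v w, ω (ρ γ v) (ρ γ w) = ω v w) (hnd : ∀ v, (∀ w, ω v w = 0) → v = 0) :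
    ∃ a ∈ ⋀[ℝ]^2 (Module.Dual ℝ V), (∀ γ, ExteriorAlgebra.map (ρ γ).dualMap a = a) ∧
      a ^ m ≠ 0 := by
  classical
  let b := Module.finBasis ℝ V
  have hskew : ∀ v w, ω v w = -ω w v := by
    intro v w
    have := halt (v + w)
    simp only [map_add, LinearMap.add_apply, halt] at this
    linarith
  -- the element
  let a : ExteriorAlgebra ℝ (Module.Dual ℝ V) :=
    (2 : ℝ)⁻¹ • ∑ i, ι ℝ (b.coord i) * ι ℝ (ω (b i))
  have ha : a ∈ ⋀[ℝ]^2 (Module.Dual ℝ V) := by
    refine Submodule.smul_mem _ _ (Submodule.sum_mem _ fun i _ => ?_)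
    rw [exteriorPower, pow_two]
    exact Submodule.mul_mem_mul ⟨_, rfl⟩ ⟨_, rfl⟩
  have hcon : ∀ v, con (Module.Dual.eval ℝ V v) a = ι ℝ (ω v) := by
    intro v
    have h1 : ∀ i, con (Module.Dual.eval ℝ V v) (ι ℝ (b.coord i) * ι ℝ (ω (b i))) =
        ι ℝ (b.coord i v • ω (b i)) + ι ℝ (ω v (b i) • b.coord i) := by
      intro i
      rw [con_ι_mul, con_ι, Algebra.algebraMap_eq_smul_one, mul_smul_comm, mul_one, map_smul,
        map_smul, Module.Dual.eval_apply, Module.Dual.eval_apply, hskew v (b i), neg_smul]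
      abel
    have h2 : ∑ i, b.coord i v • ω (b i) = ω v := by
      have h := congrArg ω (b.sum_repr v)
      rw [map_sum] at h
      simpa only [map_smul, Module.Basis.coord_apply] using h
    have h3 : ∑ i, ω v (b i) • b.coord i = ω v := by
      refine b.ext fun k => ?_
      rw [LinearMap.sum_apply, Finset.sum_eq_single k]
      · simp
      · intro i _ hik
        simp [hik.symm]
      · intro h; exact absurd (Finset.mem_univ k) h
    change con (Module.Dual.eval ℝ V v) ((2 : ℝ)⁻¹ • ∑ i, ι ℝ (b.coord i) * ι ℝ (ω (b i))) = _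
    rw [map_smul, map_sum, Finset.sum_congr rfl fun i _ => h1 i, Finset.sum_add_distrib,
      ← map_sum, ← map_sum, h2, h3, ← two_smul ℝ, smul_smul]
    norm_num
  refine ⟨a, ha, ?_, ?_⟩
  · intro γ
    have h1 := euler b 2 _ (map_mem (ρ γ).dualMap ha)
    have h2 := euler b 2 _ ha
    have h3 : ∀ v, con (Module.Dual.eval ℝ V v) (ExteriorAlgebra.map (ρ γ).dualMap a) =
        con (Module.Dual.eval ℝ V v) a := by
      intro v
      have h4 : (Module.Dual.eval ℝ V v) ∘ₗ (ρ γ).dualMap = Module.Dual.eval ℝ V (ρ γ v) := rfl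
      rw [con_map, h4, hcon, hcon, ExteriorAlgebra.map_apply_ι]
      congr 1
      ext w
      exact hinv γ v w
    simp only [h3] at h1
    rw [h2] at h1
    have h6 : ((2 : ℕ) : ℝ) • (a - ExteriorAlgebra.map (ρ γ).dualMap a) = 0 := by
      rw [smul_sub, h1, sub_self]
    rcases smul_eq_zero.1 h6 with h7 | h7
    · exact absurd h7 (by norm_num)
    · exact (sub_eq_zero.1 h7).symm
  · have hsurj : ∀ θ : Module.Dual ℝ V, ∃ v, ω v = θ := by
      have hinj : Function.Injective ω := by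
        rw [injective_iff_map_eq_zero]
        intro v hv
        exact hnd v fun w => by rw [hv, LinearMap.zero_apply]
      exact (LinearMap.injective_iff_surjective_of_finrank_eq_finrank
        (Subspace.dual_finrank_eq).symm).1 hinj
    have hpow : ∀ k (d : Module.Dual ℝ (Module.Dual ℝ V)),
        con d (a ^ (k + 1)) = ((k + 1 : ℕ) : ℝ) • (con d a * a ^ k) := by
      intro k d
      induction k with
      | zero => simp
      | succ k ih =>
        have hc : con d a * a = a * con d a := by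
          obtain ⟨v, hv⟩ := (Module.evalEquiv ℝ V).surjective d
          have hd : d = Module.Dual.eval ℝ V v := by rw [← hv]; rfl
          rw [hd, hcon, swap_one (ω v) 2 a ha]
          norm_num
        rw [pow_succ' a (k + 1), con_mul ha, ih, mul_smul_comm, ← mul_assoc, ← hc, mul_assoc,
          ← pow_succ', Nat.cast_succ (k + 1), add_smul, one_smul, add_comm]
    have hmem : ∀ k, a ^ k ∈ ⋀[ℝ]^(2 * k) (Module.Dual ℝ V) := by
      intro k
      rw [exteriorPower, pow_mul]
      exact Submodule.pow_mem_pow _ ha k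
    have hall : ∀ k, k ≤ m → a ^ k ≠ 0 := by
      intro k
      induction k with
      | zero => intro _; rw [pow_zero]; exact one_ne_zero
      | succ k ih =>
        intro hk h0
        apply ih (by omega)
        have h1 : ∀ θ : Module.Dual ℝ V, ι ℝ θ * a ^ k = 0 := by
          intro θ
          obtain ⟨v, rfl⟩ := hsurj θ
          have h2 := hpow k (Module.Dual.eval ℝ V v)
          rw [h0, map_zero, hcon] at h2
          exact (smul_eq_zero.1 h2.symm).resolve_left (by positivity)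
        have h3 := euler b (2 * k) _ (hmem k)
        have h5 : ∀ i, ι ℝ (b.coord i) * con (Module.Dual.eval ℝ V (b i)) (a ^ k) = a ^ k := by
          intro i
          have h6 := con_ι_mul (Module.Dual.eval ℝ V (b i)) (b.coord i) (a ^ k)
          rw [h1, map_zero, Module.Dual.eval_apply, Module.Basis.coord_apply,
            Module.Basis.repr_self, Finsupp.single_eq_same, one_smul] at h6
          exact (sub_eq_zero.1 h6.symm).symm
        rw [Finset.sum_congr rfl fun i _ => h5 i, Finset.sum_const, Finset.card_univ,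
          Fintype.card_fin, hm, ← Nat.cast_smul_eq_nsmul ℝ] at h3
        have h7 : (((2 * m : ℕ) : ℝ) - ((2 * k : ℕ) : ℝ)) • a ^ k = 0 := by
          rw [sub_smul, h3, sub_self]
        rcases smul_eq_zero.1 h7 with h8 | h8
        · exfalso
          have h9 : ((2 * m : ℕ) : ℝ) = ((2 * k : ℕ) : ℝ) := sub_eq_zero.1 h8
          have h10 : 2 * m = 2 * k := by exact_mod_cast h9
          omega
        · exact h8
    exact hall m le_rfl

theorem torus_iff (ρ : F → V →ₗ[ℝ] V) {m : ℕ} (hm : Module.finrank ℝ V = 2 * m) :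
    HasClass (torus ρ) m ↔ InvariantForm ρ := by
  refine ⟨linear_form ρ hm, ?_⟩
  rintro ⟨ω, h1, h2, h3⟩
  obtain ⟨a, ha, hinv, hne⟩ := converse_form ρ hm ω h1 h2 h3
  exact ⟨a, ha, hinv, hne⟩

end Converse

theorem tower {A B : Coh F} {m : ℕ} {l : List (Coh F × ℕ)} (hA : HasDim A m)
    (hB : IsTower A l B) :
    HasClass B (m + (l.map Prod.snd).sum) ↔ HasClass A m ∧ ∀ p ∈ l, HasClass p.1 p.2 := by
  have key : HasDim B (m + (l.map Prod.snd).sum) ∧
      (HasClass B (m + (l.map Prod.snd).sum) ↔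
        HasClass A m ∧ ∀ p ∈ l, HasClass p.1 p.2) := by
    induction hB with
    | base => simpa using hA
    | @step l B N P n _ hN hfix hK ih =>
      obtain ⟨K⟩ := hK
      have h1 : m + (((N, n) :: l).map Prod.snd).sum = m + (l.map Prod.snd).sum + n := by
        rw [List.map_cons, List.sum_cons]
        omega
      rw [h1]
      refine ⟨hasDim_step K ih.1 hN, ?_⟩
      rw [one_step K ih.1 hN hfix, ih.2, List.forall_mem_cons]
      tauto
  exact key.2

/-- (1) Let `A` be (the cohomology of) a closed connected `2m`-manifold with an action of `F`, and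
let `B` be the Künneth product of `A` and closed connected `2n_i`-manifolds `N_i` with actions of
`F` that fix all products of two classes of degree `1`. Some `F`-invariant class of degree `2` of
`B` has non-zero top power if and only if this is so for `A` and for every `N_i`.

(2) If `A` is the cohomology of a torus `V / Λ` with an action of `F` by affine maps with linear
parts `ρ γ`, the condition on `A` means that there is a linear symplectic form on `V` invariant
under all `ρ γ`. -/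
theorem result :
    (∀ {A B : Coh F} {m : ℕ} {l : List (Coh F × ℕ)}, HasDim A m → IsTower A l B →
      (HasClass B (m + (l.map Prod.snd).sum) ↔ HasClass A m ∧ ∀ p ∈ l, HasClass p.1 p.2)) ∧
    (∀ {V : Type} [AddCommGroup V] [Module ℝ V] [FiniteDimensional ℝ V] (ρ : F → V →ₗ[ℝ] V)
        {B : Coh F} {m : ℕ} {l : List (Coh F × ℕ)},
      Module.finrank ℝ V = 2 * m → IsTower (torus ρ) l B →
      (HasClass B (m + (l.map Prod.snd).sum) ↔
        InvariantForm ρ ∧ ∀ p ∈ l, HasClass p.1 p.2)) := by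
  refine ⟨tower, ?_⟩
  intro V _ _ _ ρ B m l hm hB
  rw [tower (torus_hasDim ρ hm) hB, torus_iff ρ hm]

end Pool.Agent.Results.MP_9986fc_gt.SurfaceFactors
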